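import Pool.Agent.Lib.MP_4c83b4_gt.Vol

set_option autoImplicit false

namespace Pool.Agent.Results.MP_4c83b4_gt.PentagonSuspension

open Pool.Agent.Lib.MP_4c83b4_gt MeasureTheory

/-- There is a convex body in `ℝ^6`, whose interior meets `{p_3 = 0}`, and whose coisotropic
Hofer-Zehnder capacity is strictly larger than `(3! min {Vol D⁺, Vol D⁻})^{1/3}`. -/
theorem result : ∃ D : Set (Phase 2), Convex ℝ D ∧ IsCompact D ∧
    (interior D ∩ hyper 2).Nonempty ∧
    ((((Nat.factorial 3 : ℝ) * min (volume (upper D)).toReal (volume (lower D)).toReal) ^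
      (1 / 3 : ℝ) : ℝ) : EReal) < cLR D :=
  ⟨body, convex_body, isCompact_body, interior_nonempty,
    (EReal.coe_lt_coe_iff.2 bound_lt).trans lt_cLR⟩

end Pool.Agent.Results.MP_4c83b4_gt.PentagonSuspension
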